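import Pool.Agent.Helper80.NMI.Long

/-!
# Gaps in the lengths of computations relative to non-monotone induction: both readings

The answer depends on what the immediate subcomputations of an application `I(F)` are.
If they are all values of the total functional `F` (Kleene's S8), there are no gaps below the
first ordinal not computable in `I`.  If they are the values `F(f_β)`, `β ≤ α_F`, used by the
induction (countable computation trees), gaps occur.
-/

open Pool.Agent.Helper80.NMI

theorem Pool.Agent.Results.MP_70d38a_lc.BothReadings.result :
    (∀ α : Ordinal.{0}, ComputableOrd allReals α → IsLength allReals α) ∧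
    (∃ α : Ordinal.{0}, ComputableOrd allReals α ∧ ¬ IsLength usedReals α ∧
      ∃ β, α < β ∧ IsLength usedReals β) := by
  refine ⟨fun α h => no_gap h α le_rfl, ?_⟩
  obtain ⟨α, h1, -, h2, h3⟩ := first_gap
  exact ⟨α, h1, h2, h3⟩
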