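import Pool.Agent.Helper80.NMI.Long

/-!
# Lengths of computations relative to non-monotone induction: countable computation trees

Gaps occur: some ordinal computable in `I` is not the length of any terminating computation
`{e}(I, a⃗)` with integer inputs, when the computation tree of `I(F)` contains subcomputations
only for the values `F(f_β)`, `β ≤ α_F`, used by the induction.
-/

open Pool.Agent.Helper80.NMI

theorem Pool.Agent.Results.MP_70d38a_lc.CountableLengths.result :
    ∃ α : Ordinal.{0}, ComputableOrd allReals α ∧ (∀ β < α, IsLength usedReals β) ∧
      ¬ IsLength usedReals α ∧ ∃ β, α < β ∧ IsLength usedReals β :=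
  first_gap
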