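import Pool.Agent.Helper80.NMI.Main

/-!
# Lengths of computations relative to non-monotone induction: Kleene's S8

Every ordinal computable in `I` (and every smaller ordinal) is the length of a terminating
computation `{e}(I, a⃗)` with integer inputs: there are no gaps, when the computation tree of
`I(F)` contains subcomputations for all values of the total functional `F`.
-/

open Pool.Agent.Helper80.NMI

theorem Pool.Agent.Results.MP_70d38a_lc.KleeneLengths.result :
    ∀ α : Ordinal.{0}, ComputableOrd allReals α → ∀ β ≤ α, IsLength allReals β :=
  fun _ h => no_gap h
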